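import Mathlib
import Pool.Agent.LibTF.C2
import Pool.Agent.LibTF.D10

/-! Thompson's group `F` is Cayley position-faithful (one-tape) linear-time computable. -/

namespace Pool.Agent.Results.MP_7161f1_al.ThompsonLinear

/-- The convolution `u ⊗ v`: the `k`-th letter is the pair of the `k`-th letters of `u` and `v`,
where `none` (the padding symbol) is used once a word has ended. -/
def conv {A : Type} (u v : List A) : List (Option A × Option A) :=
  (List.range (max u.length v.length)).map (fun k => (u[k]?, v[k]?))

/-- A total function `f` on words is automatic if `{u ⊗ f u}` is a regular language. -/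
def IsAutomatic {A : Type} (f : List A → List A) : Prop :=
  Language.IsRegular ({w | ∃ u : List A, w = conv u (f u)} : Language (Option A × Option A))

/-- The generator `x₀` of the free group of rank two. -/
def x0 : FreeGroup (Fin 2) := FreeGroup.of 0

/-- The generator `x₁` of the free group of rank two. -/
def x1 : FreeGroup (Fin 2) := FreeGroup.of 1

/-- The commutator. -/
def cmt (a b : FreeGroup (Fin 2)) : FreeGroup (Fin 2) := a * b * a⁻¹ * b⁻¹

/-- The relators `[x₀ x₁⁻¹, x₀⁻¹ x₁ x₀]` and `[x₀ x₁⁻¹, x₀⁻² x₁ x₀²]`. -/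
def rels : Set (FreeGroup (Fin 2)) :=
  {cmt (x0 * x1⁻¹) (x0⁻¹ * x1 * x0), cmt (x0 * x1⁻¹) (x0⁻¹ ^ 2 * x1 * x0 ^ 2)}

/-- Thompson's group `F = ⟨x₀, x₁ | [x₀ x₁⁻¹, x₀⁻¹ x₁ x₀], [x₀ x₁⁻¹, x₀⁻² x₁ x₀²]⟩`. -/
abbrev F : Type := PresentedGroup rels

/-- `G` has a normal form `(L, ψ)` over a finite alphabet such that for every `s` in `S` the right
multiplication by `s` is realised on normal forms by a total automatic function. -/
def CayleyLinear (G : Type) [Group G] (S : Set G) : Prop :=
  ∃ (A : Type) (_ : Finite A) (L : Set (List A)) (ψ : L ≃ G),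
    ∀ s ∈ S, ∃ f : List A → List A, IsAutomatic f ∧
      ∀ w : L, ∃ h : f w.1 ∈ L, ψ ⟨f w.1, h⟩ = ψ w * s

/-- The four elements `x₀^{±1}, x₁^{±1}` generate `F` as a monoid, and `F` has one normal form for
which the right multiplications by all its elements are realised by automatic functions. -/
theorem result :
    Submonoid.closure ({PresentedGroup.of 0, PresentedGroup.of 1, (PresentedGroup.of 0)⁻¹,
      (PresentedGroup.of 1)⁻¹} : Set F) = ⊤ ∧
    CayleyLinear F Set.univ :=
  ⟨TF.closure_gen, TF.main_of_treeCode TF.treeCode⟩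

end Pool.Agent.Results.MP_7161f1_al.ThompsonLinear
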